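import Pool.Agent.Helper9.TG.TreeDefs
import Pool.Agent.Helper9.TF.StateB

/-!
# Symmetries of the matrix of the Casimir operator
-/

namespace Pool.Agent.Helper9.Kashaev

open Finset
open Pool.Agent.Helper9.TG
open scoped Matrix

lemma r4_lam_rev {N : ℕ} (hN : 2 ≤ N) (a : Fin N) :
    TB.lam N ((Fin.rev a : Fin N) : ℕ) = TB.lam N (a : ℕ) := by
  unfold TB.lam TB.lamR
  have h1 : ((Fin.rev a : Fin N) : ℕ) = N - 1 - a := by rw [Fin.val_rev]; omega
  have h2 : (((Fin.rev a : Fin N) : ℕ) : ℝ) = (N : ℝ) - 1 - (a : ℕ) := by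
    rw [h1, Nat.sub_sub, Nat.cast_sub (by have := a.2; omega)]; push_cast; ring
  rw [h2]
  have hN0 : (N : ℝ) ≠ 0 := by positivity
  have h3 : Real.pi * ((2 * ((N : ℝ) - 1 - (a : ℕ)) + 1) / N) =
      2 * Real.pi - Real.pi * ((2 * ((a : ℕ) : ℝ) + 1) / N) := by
    field_simp; ring
  rw [h3, Real.cos_two_pi_sub]

lemma r4_bb_rev {N : ℕ} (hN : 2 ≤ N) {l : ℕ} (h : l ≤ N) :
    TB.bb N (N - l : ℕ) = TB.bb N l := by
  unfold TB.bb TB.sb
  have hN0 : (N : ℝ) ≠ 0 := by positivity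
  have h3 : Real.pi * (((N - l : ℕ) : ℝ) / N) = Real.pi - Real.pi * ((l : ℝ) / N) := by
    rw [Nat.cast_sub h]; field_simp
  rw [h3, Real.sin_pi_sub]

lemma r4_bb_ne {N : ℕ} {l : ℕ} (h0 : 0 < l) (h : l < N) : TB.bb N l ≠ 0 := by
  unfold TB.bb
  have hN0 : (0 : ℝ) < N := by exact_mod_cast (by omega : 0 < N)
  have : 0 < TB.sb ((l : ℝ) / N) := by
    apply TB.sb_pos
    · have : (0 : ℝ) < l := by exact_mod_cast h0
      positivity
    · rw [div_lt_one hN0]; exact_mod_cast h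
  rw [Complex.ofReal_ne_zero]
  exact neg_ne_zero.mpr (pow_ne_zero _ this.ne')

/-- the reversal symmetry of `LM` -/
lemma r4_LM_T {N : ℕ} (hN : 2 ≤ N) : (LM N)ᵀ = (LM N).submatrix Fin.rev Fin.rev := by
  ext a l
  rw [Matrix.transpose_apply, Matrix.submatrix_apply]
  unfold LM
  have ha := a.2
  have hl := l.2
  have e1 : ((Fin.rev a : Fin N) : ℕ) = N - 1 - a := by rw [Fin.val_rev]; omega
  have e2 : ((Fin.rev l : Fin N) : ℕ) = N - 1 - l := by rw [Fin.val_rev]; omega
  by_cases h : (l : ℕ) = a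
  · rw [if_pos h, if_pos (show ((Fin.rev a : Fin N) : ℕ) = (Fin.rev l : Fin N) by omega),
      r4_lam_rev hN a, h]
  · rw [if_neg h, if_neg (show ¬ ((Fin.rev a : Fin N) : ℕ) = (Fin.rev l : Fin N) by omega)]
    by_cases h' : (l : ℕ) = a + 1
    · rw [if_pos h', if_pos (show ((Fin.rev a : Fin N) : ℕ) = (Fin.rev l : Fin N) + 1 by omega), e1]
      rw [show N - 1 - (a : ℕ) = N - (l : ℕ) by omega, r4_bb_rev hN (by omega)]
    · rw [if_neg h', if_neg (show ¬ ((Fin.rev a : Fin N) : ℕ) = (Fin.rev l : Fin N) + 1 by omega)]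

lemma r4_nM_comm (N m : ℕ) : LM N * nM N m = nM N m * LM N := by
  induction m with
  | zero => rw [nM, Matrix.mul_one, Matrix.one_mul]
  | succ m ih =>
    rw [nM, Matrix.mul_smul, Matrix.smul_mul]
    congr 1
    simp only [Matrix.sub_mul, Matrix.mul_sub, Matrix.smul_mul, Matrix.mul_smul, Matrix.one_mul]
    rw [Matrix.mul_assoc, ← ih]

lemma r4_sub_mul {N : ℕ} (A B : Matrix (Fin N) (Fin N) ℂ) :
    (A * B).submatrix Fin.rev Fin.rev = A.submatrix Fin.rev Fin.rev * B.submatrix Fin.rev Fin.rev :=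
  (Matrix.submatrix_mul_equiv A B Fin.rev Fin.revPerm Fin.rev).symm

/-- the reversal symmetry of `nM` -/
lemma r4_nM_T {N : ℕ} (hN : 2 ≤ N) (m : ℕ) : (nM N m)ᵀ = (nM N m).submatrix Fin.rev Fin.rev := by
  have h1 : (1 : Matrix (Fin N) (Fin N) ℂ).submatrix Fin.rev Fin.rev = 1 :=
    Matrix.submatrix_one _ Fin.rev_injective
  induction m with
  | zero => rw [nM, Matrix.transpose_one, h1]
  | succ m ih =>
    have h2 : (LM N - TB.lam N m • (1 : Matrix (Fin N) (Fin N) ℂ)) * nM N m =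
        nM N m * (LM N - TB.lam N m • (1 : Matrix (Fin N) (Fin N) ℂ)) := by
      rw [Matrix.sub_mul, Matrix.mul_sub, r4_nM_comm, Matrix.smul_mul, Matrix.mul_smul,
        Matrix.one_mul, Matrix.mul_one]
    have h3 : (LM N - TB.lam N m • (1 : Matrix (Fin N) (Fin N) ℂ))ᵀ =
        (LM N - TB.lam N m • (1 : Matrix (Fin N) (Fin N) ℂ)).submatrix Fin.rev Fin.rev := by
      rw [Matrix.transpose_sub, Matrix.transpose_smul, Matrix.transpose_one, r4_LM_T hN]
      rw [Matrix.submatrix_sub, Matrix.submatrix_smul]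
      simp only [Pi.sub_apply, Pi.smul_apply, h1]
    rw [nM, Matrix.transpose_smul]
    rw [h2, Matrix.transpose_mul, h3, ih, ← r4_sub_mul]
    rw [← h2]
    rfl

/-- the matrices are real -/
lemma r4_LM_conj (N : ℕ) (i j : Fin N) : (starRingEnd ℂ) (LM N i j) = LM N i j := by
  unfold LM
  split_ifs
  · unfold TB.lam; rw [Complex.conj_ofReal]
  · unfold TB.bb; rw [Complex.conj_ofReal]
  · rw [map_zero]

lemma r4_nM_conj (N m : ℕ) : (nM N m).map (starRingEnd ℂ) = nM N m := by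
  induction m with
  | zero =>
    rw [nM]
    exact Matrix.map_one _ (map_zero _) (map_one _)
  | succ m ih =>
    have h1 : (LM N).map (starRingEnd ℂ) = LM N := by
      ext i j; rw [Matrix.map_apply, r4_LM_conj]
    ext i j
    rw [Matrix.map_apply, nM, Matrix.smul_apply, Matrix.mul_apply, smul_eq_mul, map_mul, map_sum]
    congr 1
    · unfold TB.bb; rw [map_inv₀, Complex.conj_ofReal]
    · apply sum_congr rfl
      intro k _
      rw [map_mul]
      have h2 : (starRingEnd ℂ) (nM N m k j) = nM N m k j := by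
        have := congrFun (congrFun ih k) j
        rwa [Matrix.map_apply] at this
      rw [h2, Matrix.sub_apply, Matrix.smul_apply, map_sub, r4_LM_conj, smul_eq_mul, map_mul]
      congr 2
      unfold TB.lam
      rw [Complex.conj_ofReal]
      congr 1
      rw [Matrix.one_apply]
      split_ifs <;> simp

/-- the basis vectors -/
lemma r4_nM_e0 {N m : ℕ} (h : m < N) :
    nM N m *ᵥ e0 N = fun i : Fin N => if (i : ℕ) = m then (1 : ℂ) else 0 := by
  induction m with
  | zero => rw [nM, Matrix.one_mulVec]; rfl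
  | succ m ih =>
    have ih' := ih (by omega)
    rw [nM, Matrix.smul_mulVec, ← Matrix.mulVec_mulVec, ih', Matrix.sub_mulVec,
      Matrix.smul_mulVec, Matrix.one_mulVec]
    funext i
    simp only [Pi.smul_apply, Pi.sub_apply, smul_eq_mul]
    have h1 : (LM N *ᵥ fun i : Fin N => if (i : ℕ) = m then (1 : ℂ) else 0) i =
        LM N i ⟨m, by omega⟩ := by
      unfold Matrix.mulVec dotProduct
      rw [Finset.sum_eq_single (⟨m, by omega⟩ : Fin N)]
      · simp
      · intro b _ hb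
        show LM N i b * (if (b : ℕ) = m then (1 : ℂ) else 0) = 0
        rw [if_neg (fun h => hb (Fin.ext h)), mul_zero]
      · intro h; exact absurd (mem_univ _) h
    rw [h1]
    unfold LM
    have hb := r4_bb_ne (N := N) (Nat.succ_pos m) h
    by_cases h2 : (i : ℕ) = m
    · rw [if_pos (show (i : ℕ) = ((⟨m, by omega⟩ : Fin N) : ℕ) from h2), if_pos h2, if_neg (by omega),
        h2]
      ring
    · rw [if_neg (show ¬ (i : ℕ) = ((⟨m, by omega⟩ : Fin N) : ℕ) from h2), if_neg h2]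
      by_cases h3 : (i : ℕ) = m + 1
      · rw [if_pos (show (i : ℕ) = ((⟨m, by omega⟩ : Fin N) : ℕ) + 1 from h3), if_pos h3, h3]
        rw [mul_zero, sub_zero]
        have : ((m + 1 : ℕ) : ℕ) = Nat.succ m := rfl
        exact inv_mul_cancel₀ hb
      · rw [if_neg (show ¬ (i : ℕ) = ((⟨m, by omega⟩ : Fin N) : ℕ) + 1 from h3), if_neg h3]
        ring

/-- transposes on the last basis vector -/
lemma r4_nM_T_e0 {N : ℕ} (hN : 2 ≤ N) (m : Fin N) :
    (nM N m)ᵀ *ᵥ (fun i => e0 N (Fin.rev i)) = fun i => if i = Fin.rev m then 1 else 0 := by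
  rw [r4_nM_T hN]
  funext i
  have h1 := congrFun (r4_nM_e0 (N := N) m.2) (Fin.rev i)
  unfold Matrix.mulVec dotProduct at h1 ⊢
  simp only [Matrix.submatrix_apply]
  rw [← Fintype.sum_equiv Fin.revPerm (fun j => nM N m (Fin.rev i) (Fin.rev j) * e0 N (Fin.rev j))
    (fun j => nM N m (Fin.rev i) j * e0 N j) (fun j => rfl)] at h1
  rw [h1]
  by_cases h : i = Fin.rev m
  · subst h
    rw [if_pos rfl, Fin.rev_rev, if_pos rfl]
  · rw [if_neg h, if_neg]
    intro h'
    apply h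
    rw [← Fin.rev_rev i]
    congr 1
    exact Fin.ext h'

end Pool.Agent.Helper9.Kashaev
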