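import Mathlib
import Pool.Agent.Helper11.TG.R4A
import Pool.Agent.Helper96.TG.R3

/-!
# Evaluation of arborescent links
-/

namespace Pool.Agent.Helper9.Kashaev

open Finset
open Pool.Agent.Helper9.TG
open scoped Matrix

lemma r4_word {N : ℕ} (hN : 2 ≤ N) (b : Bool) (r : ℕ) {f : List ℕ → ℂ} (hf : H0 N f)
    (l : Fin (N - 0)) :
    gg N (RT N (wordD 0 (List.replicate r b)) f) l 0 (N - 1 - l) =
      ∑ k : Fin (N - 0), ((if b then Am N 0 else Cm N 0) ^ r) l k * gg N f k 0 (N - 1 - k) := by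
  have h0 : 0 < N := by omega
  have hE : ES N ⟨f, hf.sup⟩ = 0 := Subtype.ext hf.kerE
  have h := congrFun (rhoS_WS hN (List.replicate r b) ⟨f, hf.sup⟩ hE) (im N 0 l)
  rw [MW_replicate, block_mulVec (ML N b ^ r) (im N 0) (im N 0) (im_inj N 0)
    (lev_im_surj h0 _ (ML_lev b r))] at h
  have h1 : (ML N b ^ r).submatrix (im N 0) (im N 0) = (if b then Am N 0 else Cm N 0) ^ r := by
    cases b
    · exact Cm_pow h0 r
    · exact Am_pow h0 r
  rw [h1] at h
  have h2 : rhoS N (WS N (List.replicate r b) ⟨f, hf.sup⟩) (im N 0 l) =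
      gg N (RT N (wordD 0 (List.replicate r b)) f) l 0 (N - 1 - l) := by
    show gg N (WS N (List.replicate r b) ⟨f, hf.sup⟩).1 _ 0 _ = _
    rw [WS_coe]
    rfl
  rw [h2] at h
  rw [h]
  rfl

lemma r4_pos {N : ℕ} (hN : 2 ≤ N) (r : ℕ) {f : List ℕ → ℂ} (hf : H0 N f) :
    crd N (RT N (List.replicate r (0, .pos)) f) =
      tht N 0 0 ^ r • ((TB.AM N N ^ r) *ᵥ crd N f) := by
  funext l
  have h := r4_word hN true r hf l
  rw [wordD_true, if_pos rfl] at h
  show gau N l * gg N (RT N (List.replicate r (0, .pos)) f) l 0 (N - 1 - l) = _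
  rw [h, mul_sum]
  show _ = tht N 0 0 ^ r * ∑ k : Fin N, (TB.AM N N ^ r) l k * crd N f k
  rw [mul_sum]
  apply sum_congr rfl
  intro k _
  have h1 := gau_Am_pow hN r l k
  have h2 : (AMz N ^ r) l k = (TB.AM N N ^ r) l k := rfl
  rw [h2] at h1
  unfold crd
  linear_combination (gg N f k 0 (N - 1 - k)) * h1

lemma r4_neg1 {N : ℕ} (hN : 2 ≤ N) (r : ℕ) {f : List ℕ → ℂ} (hf : H0 N f) :
    crd N (RT N (List.replicate r (1, .neg)) f) =
      (starRingEnd ℂ) (tht N 0 0) ^ r • ((TB.AM N N ^ r)ᴴ *ᵥ crd N f) := by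
  funext l
  have h := r4_word hN false r hf l
  rw [wordD_false, if_neg (by simp)] at h
  show gau N l * gg N (RT N (List.replicate r (0 + 1, .neg)) f) l 0 (N - 1 - l) = _
  rw [h, mul_sum]
  show _ = (starRingEnd ℂ) (tht N 0 0) ^ r * ∑ k : Fin N, ((TB.AM N N ^ r)ᴴ) l k * crd N f k
  rw [mul_sum]
  apply sum_congr rfl
  intro k _
  have h1 := gau_Cm_pow hN r l k
  have h2 : ((AMz N ^ r)ᴴ) l k = ((TB.AM N N ^ r)ᴴ) l k := rfl
  rw [h2] at h1
  unfold crd
  linear_combination (gg N f k 0 (N - 1 - k)) * h1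

lemma r4_wf_rep (r : ℕ) : wf 2 (List.replicate r (0, .neg)) 2 := by
  induction r with
  | zero => rfl
  | succ r ih =>
    rw [List.replicate_succ]
    exact ⟨by omega, ih⟩

/-- negative crossings on the first two strands -/
lemma r4_neg {N : ℕ} (hN : 2 ≤ N) (r : ℕ) {f : List ℕ → ℂ} (hf : H0 N f) :
    crd N (RT N (List.replicate r (0, .neg)) f) =
      (starRingEnd ℂ) (tht N 0 0) ^ r • (((TB.AM N N ^ r).map (starRingEnd ℂ)) *ᵥ crd N f) := by
  obtain ⟨κ, hκ, h1⟩ := crd_cup1 hN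
  set w : Fin N → ℂ := κ⁻¹ • crd N (RT N (List.replicate r (0, .neg)) (slice N .cup 1 (ket [0])))
    with hw
  have hw' : crd N (RT N (List.replicate r (0, .neg)) (slice N .cup 1 (ket [0]))) = κ • w := by
    rw [hw, smul_smul, mul_inv_cancel₀ hκ, one_smul]
  obtain ⟨H1, H2⟩ := tangle_poly hN (r4_wf_rep r) hκ h1 hw'
  have hsh : sh 1 (List.replicate r ((0 : ℕ), Piece.neg)) = List.replicate r (1, .neg) := by
    unfold sh
    rw [List.map_replicate]
  rw [hsh] at H2
  set P : Matrix (Fin N) (Fin N) ℂ := ∑ m : Fin N, w m • nM N m with hP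
  have hP1 : ∀ u : Fin N → ℂ, ∑ m : Fin N, w m • (nM N m *ᵥ u) = P *ᵥ u := by
    intro u
    rw [hP, Matrix.sum_mulVec]
    apply sum_congr rfl
    intro m _
    rw [Matrix.smul_mulVec]
  have hP2 : ∀ u : Fin N → ℂ, ∑ m : Fin N, w m • ((nM N m)ᵀ *ᵥ u) = Pᵀ *ᵥ u := by
    intro u
    rw [hP, Matrix.transpose_sum, Matrix.sum_mulVec]
    apply sum_congr rfl
    intro m _
    rw [Matrix.transpose_smul, Matrix.smul_mulVec]
  have hPT : Pᵀ = (starRingEnd ℂ) (tht N 0 0) ^ r • (TB.AM N N ^ r)ᴴ := by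
    apply Matrix.ext_of_mulVec_single
    intro i
    obtain ⟨g, hg, hgi⟩ := crd_surj hN (Pi.single i (1 : ℂ))
    have h2 := (H2 g hg).2
    rw [hP2, r4_neg1 hN r hg, hgi] at h2
    rw [Matrix.smul_mulVec, ← h2]
  have hPe : P = (starRingEnd ℂ) (tht N 0 0) ^ r • (TB.AM N N ^ r).map (starRingEnd ℂ) := by
    rw [← Matrix.transpose_transpose P, hPT, Matrix.transpose_smul]
    rfl
  rw [(H1 f hf).2, hP1, hPe, Matrix.smul_mulVec]

/-- the conjugate of a product -/
lemma r4_conj_mulVec {N : ℕ} (A : Matrix (Fin N) (Fin N) ℂ) (u : Fin N → ℂ) (i : Fin N) :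
    (starRingEnd ℂ) ((A *ᵥ u) i) =
      ((A.map (starRingEnd ℂ)) *ᵥ (fun j => (starRingEnd ℂ) (u j))) i := by
  unfold Matrix.mulVec dotProduct
  rw [map_sum]
  apply sum_congr rfl
  intro j _
  rw [map_mul]
  rfl

lemma r4_e0_conj (N : ℕ) : (fun j => (starRingEnd ℂ) (e0 N j)) = e0 N := by
  funext j
  unfold e0
  split_ifs <;> simp

/-- the vector of a tree or its conjugate -/
noncomputable def r4V (N : ℕ) (s : Bool) (t : PTree) : Fin N → ℂ :=
  if s then Vt N t else fun i => (starRingEnd ℂ) (Vt N t i)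

lemma r4V_leaf_pos {N : ℕ} {s : Bool} {a : ℤ} (h : decide (0 < a) = s) :
    r4V N s (.leaf a) = (TB.AM N N ^ a.natAbs) *ᵥ e0 N := by
  cases s
  · have ha : ¬ 0 < a := by simpa using h
    funext i
    show (starRingEnd ℂ) ((twM N a *ᵥ e0 N) i) = _
    unfold twM
    rw [if_neg ha, r4_conj_mulVec, r4_e0_conj]
    congr 2
    ext i j
    simp only [Matrix.map_apply, Complex.conj_conj]
  · have ha : 0 < a := by simpa using h
    show twM N a *ᵥ e0 N = _
    unfold twM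
    rw [if_pos ha]

lemma r4V_leaf_neg {N : ℕ} {s : Bool} {a : ℤ} (h : ¬ decide (0 < a) = s) :
    r4V N s (.leaf a) = ((TB.AM N N ^ a.natAbs).map (starRingEnd ℂ)) *ᵥ e0 N := by
  cases s
  · have ha : 0 < a := by simpa using h
    funext i
    show (starRingEnd ℂ) ((twM N a *ᵥ e0 N) i) = _
    unfold twM
    rw [if_pos ha, r4_conj_mulVec, r4_e0_conj]
  · have ha : ¬ 0 < a := by simpa using h
    show twM N a *ᵥ e0 N = _
    unfold twM
    rw [if_neg ha]

lemma r4V_graft {N : ℕ} (s : Bool) (p c : PTree) :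
    r4V N s (.graft p c) = ∑ m : Fin N, r4V N (!s) c (Fin.rev m) • (nM N m *ᵥ r4V N s p) := by
  cases s
  · funext i
    show (starRingEnd ℂ) ((∑ m : Fin N, (starRingEnd ℂ) (Vt N c (Fin.rev m)) •
      (nM N m *ᵥ Vt N p)) i) = _
    rw [Finset.sum_apply, Finset.sum_apply, map_sum]
    apply sum_congr rfl
    intro m _
    rw [Pi.smul_apply, Pi.smul_apply, smul_eq_mul, smul_eq_mul, map_mul, Complex.conj_conj,
      r4_conj_mulVec, r4_nM_conj]
    rfl
  · rfl

/-- the coordinates of the vector of a tangle -/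
theorem r4_main {N : ℕ} (hN : 2 ≤ N) {κ : ℂ} (hκ : κ ≠ 0)
    (h1 : crd N (slice N .cup 1 (ket [0])) = κ • e0 N) (t : PTree) : ∀ s : Bool,
    ∃ φ : ℂ, ‖φ‖ = 1 ∧
      crd N (RT N (tangle 0 s t) (slice N .cup 1 (ket [0]))) = κ • (φ • r4V N s t) := by
  induction t with
  | leaf a =>
    intro s
    have hx := H0_cup1 hN
    by_cases h : decide (0 < a) = s
    · refine ⟨tht N 0 0 ^ a.natAbs, by rw [norm_pow, norm_tht, one_pow], ?_⟩
      show crd N (RT N (List.replicate a.natAbs (0, if decide (0 < a) = s then .pos else .neg))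
        (slice N .cup 1 (ket [0]))) = _
      rw [if_pos h, r4_pos hN _ hx, h1, r4V_leaf_pos h, Matrix.mulVec_smul, smul_comm]
    · refine ⟨(starRingEnd ℂ) (tht N 0 0) ^ a.natAbs,
        by rw [norm_pow, RCLike.norm_conj, norm_tht, one_pow], ?_⟩
      show crd N (RT N (List.replicate a.natAbs (0, if decide (0 < a) = s then .pos else .neg))
        (slice N .cup 1 (ket [0]))) = _
      rw [if_neg h, r4_neg hN _ hx, h1, r4V_leaf_neg h, Matrix.mulVec_smul, smul_comm]
  | graft p c ihp ihc =>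
    intro s
    obtain ⟨φ, hφ, hp⟩ := ihp s
    obtain ⟨ψ, hψ, hc⟩ := ihc (!s)
    obtain ⟨κ', hκ', hn, h0⟩ := crd_cup0 hN
    have hn' := hn κ h1
    have hwc : wf 2 (tangle 0 (!s) c) 2 := wf_tangle 0 (!s) c 2 (by omega)
    have hwp : wf 2 (tangle 0 s p) 2 := wf_tangle 0 s p 2 (by omega)
    set D : Diagram := [(0, .cup)] ++ sh 1 (tangle 0 (!s) c) ++ [(2, .cap)] with hD
    have hwD : wf 2 D 2 := by
      have e1 : wf 2 [(0, .cup)] 4 := ⟨by omega, rfl⟩
      have e2 : wf 4 (sh 1 (tangle 0 (!s) c)) 4 := by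
        rw [← tangle_sh]
        exact wf_tangle 1 (!s) c 4 (by omega)
      have e3 : wf 4 [(2, .cap)] 2 := ⟨by omega, rfl⟩
      exact wf_append (wf_append e1 e2) e3
    have hT : tangle 0 s (.graft p c) = tangle 0 s p ++ D := by
      rw [hD, ← tangle_sh]
      simp only [tangle, List.append_assoc]
    -- the vector of the turned tangle
    obtain ⟨_, H2⟩ := tangle_poly hN hwc (w := ψ • r4V N (!s) c) hκ h1 hc
    have hDv : crd N (RT N D (slice N .cup 1 (ket [0]))) =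
        κ • ((κ' * κ⁻¹ * ψ) • fun i => r4V N (!s) c (Fin.rev i)) := by
      rw [hD, turn_cup (by omega) hwc, (H2 _ (H0_cup0 hN)).2, h0]
      funext i
      rw [Finset.sum_apply]
      have h3 : ∀ m : Fin N, ((ψ • r4V N (!s) c) m • ((nM N m)ᵀ *ᵥ
          (κ' • fun i => e0 N (Fin.rev i)))) i =
          if m = Fin.rev i then κ' * ψ * r4V N (!s) c m else 0 := by
        intro m
        rw [Matrix.mulVec_smul, r4_nM_T_e0 hN m]
        simp only [Pi.smul_apply, smul_eq_mul]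
        by_cases h : m = Fin.rev i
        · rw [if_pos h, if_pos (by rw [h, Fin.rev_rev])]; ring
        · rw [if_neg h, if_neg (by rintro rfl; exact h (Fin.rev_rev m).symm)]; ring
      rw [sum_congr rfl (fun m _ => h3 m), sum_ite_eq' univ (Fin.rev i), if_pos (mem_univ _)]
      simp only [Pi.smul_apply, smul_eq_mul]
      field_simp
    obtain ⟨H1, _⟩ := tangle_poly hN hwD hκ h1 hDv
    obtain ⟨Hp, _⟩ := tangle_poly hN hwp (w := φ • r4V N s p) hκ h1 hp
    have hHp := (Hp _ (H0_cup1 hN)).1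
    refine ⟨κ' * κ⁻¹ * ψ * φ, ?_, ?_⟩
    · rw [norm_mul, norm_mul, norm_mul, norm_inv, hn', hφ, hψ,
        mul_inv_cancel₀ (norm_ne_zero_iff.mpr hκ)]
      ring
    · rw [hT, RT_append, (H1 _ hHp).2, hp, r4V_graft]
      rw [smul_sum, smul_sum]
      apply sum_congr rfl
      intro m _
      rw [Matrix.mulVec_smul, Matrix.mulVec_smul]
      funext i
      simp only [Pi.smul_apply, smul_eq_mul]
      ring

theorem tree_matrix {N : ℕ} (hN : 2 ≤ N) (t : PTree) : ∃ z : ℂ, IsKashaev N (plumbLink t) z ∧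
    ‖z‖ = ‖Vt N t ⟨N - 1, by omega⟩‖ := by
  have h0 : 0 < N := by omega
  have hw0 : w2 N 0 = 1 := by simp [w2, qfac_zero]
  have hw1 : w2 N (N - 1) ≠ 0 := w2_ne (by omega)
  have hw : wf 2 (tangle 0 true t) 2 := wf_tangle 0 true t 2 (by omega)
  obtain ⟨κ, hκ, h1⟩ := crd_cup1 hN
  obtain ⟨φ, hφ, hm⟩ := r4_main hN hκ h1 t true
  obtain ⟨Ht, _⟩ := tangle_poly hN hw (w := φ • r4V N true t) hκ h1 hm
  have hH := (Ht _ (H0_cup1 hN)).1
  set g : List ℕ → ℂ := RT N (tangle 0 true t) (slice N .cup 1 (ket [0])) with hg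
  have hRT : RT N (plumbLink t) (ket [0]) = slice N .cap 1 g := by
    unfold plumbLink
    rw [RT_append, RT_append]
    rfl
  have hsup : Sup N 1 (RT N (plumbLink t) (ket [0])) := by
    rw [hRT]; exact hH.sup.cap _
  have hK := isKashaev_of_Sup hN _ hsup
  have hval : RT N (plumbLink t) (ket [0]) [0] = v N ^ (-(((N : ℤ) - 1) ^ 2)) * g [N - 1, 0, 0] := by
    rw [hRT, cap_ker' hN (Sup3_iff.mp hH.sup) hH.kerE]
  refine ⟨_, hK, ?_⟩
  rw [hval, norm_mul, norm_v_zpow, one_mul]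
  -- the first coordinate of the initial vector
  have hκn : ‖κ‖ = ‖w2 N (N - 1)‖ := by
    have h2 := congrFun h1 ⟨0, h0⟩
    have h3 : slice N .cup 1 (ket [0]) [0, 0, N - 1] = 1 := by
      simp only [slice, piece]
      rw [if_pos (by omega)]
      simp [ket, cupC]
    have h4 : crd N (slice N .cup 1 (ket [0])) ⟨0, h0⟩ = gau N 0 * w2 N (N - 1) := by
      unfold crd gg
      simp only [Nat.sub_zero]
      rw [h3, hw0]; ring
    rw [h4] at h2
    have h5 : (κ • e0 N) ⟨0, h0⟩ = κ := by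
      simp [e0]
    rw [h5] at h2
    rw [← h2, norm_mul, norm_gau, one_mul]
  have h6 := congrArg norm (congrFun hm ⟨N - 1, by omega⟩)
  have h7 : crd N g ⟨N - 1, by omega⟩ = gau N (N - 1) * (w2 N (N - 1) * g [N - 1, 0, 0]) := by
    unfold crd gg
    simp only [Nat.sub_self]
    rw [hw0]; ring
  rw [h7, norm_mul, norm_gau, one_mul, norm_mul] at h6
  simp only [Pi.smul_apply, smul_eq_mul, norm_mul] at h6
  rw [hφ, one_mul, hκn] at h6
  exact mul_left_cancel₀ (norm_ne_zero_iff.mpr hw1) h6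

end Pool.Agent.Helper9.Kashaev
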